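import Mathlib
import Pool.Agent.H.MP_be4961_gt.A
import Pool.Agent.H.MP_be4961_gt.B
import Pool.Agent.H.MP_be4961_gt.C

open MeasureTheory Set Filter Topology Metric
open scoped RealInnerProductSpace

namespace Pool.Agent.Results.MP_be4961_gt.Three

open Pool.Agent.H.MP_be4961_gt

/-- Euclidean three-space. -/
abbrev E := EuclideanSpace ℝ (Fin 3)

/-- The centroidal planes of `K`: affine planes `H` through the centroid `g` of `K` such that
`g` is the centroid of `K ∩ H` with respect to area on `H`. -/
def Cen (K : Set E) : Set (AffineSubspace ℝ E) :=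
  {H | Module.finrank ℝ H.direction = 2 ∧ (⨍ x in K, x) ∈ H ∧
    ⨍ x in K ∩ H, x ∂μHE[2] = ⨍ x in K, x}

lemma ip (u w : E) : ⟪u, w⟫ = u 0 * w 0 + u 1 * w 1 + u 2 * w 2 := by
  simp [PiLp.inner_apply, Fin.sum_univ_three]; ring

lemma nsq (u : E) : ‖u‖ ^ 2 = u 0 ^ 2 + u 1 ^ 2 + u 2 ^ 2 := by
  rw [EuclideanSpace.real_norm_sq_eq, Fin.sum_univ_three]

theorem result : ∃ K : Set E, IsCompact K ∧ Convex ℝ K ∧ (interior K).Nonempty ∧
    (Cen K).encard ≤ 3 := by
  let v : Fin 18 → E := fun j => !₂[cP j, cQ j, cR j]
  obtain ⟨ε, K, ρ, e0, hK, hv, hb, hρ⟩ := body (E := E) (φ := fun x => ∑ j, cA j * ⟪x, v j⟫ ^ 5)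
    (ContDiff.sum fun j _ => contDiff_const.mul ((contDiff_id.inner ℝ contDiff_const).pow 5))
    (fun x => by
      rw [← Finset.sum_neg_distrib]
      exact Finset.sum_congr rfl fun j _ => by rw [inner_neg_left]; ring)
  have g0 : ⨍ x in K, x = 0 := by
    obtain ⟨c, -, hc⟩ := star cA v hK (fun θ h => (hρ θ h).1) (fun θ h => (hρ θ h).2.1)
      (d := 2) (by simp) (fun θ h => (hρ θ h).2.2.2)
    have i : IntegrableOn (fun x : E => x) K := continuousOn_id.integrableOn_compact hK
    have : ∫ x in K, x = 0 := by
      refine ext_inner_left ℝ fun w => ?_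
      rw [← integral_inner i, inner_zero_right]
      simp only [real_inner_comm _ w, hc, nsq, ip (v _)]
      simp only [v, Matrix.cons_val_zero, Matrix.cons_val_one, Matrix.cons_val]
      rw [glob, mul_zero]
    rw [setAverage_eq, this, smul_zero]
  refine ⟨K, hK, hv, ⟨0, mem_interior_iff_mem_nhds.2
    (mem_of_superset (ball_mem_nhds 0 (by norm_num)) hb)⟩, ?_⟩
  let T : Cubic ℝ := ⟨-2, 120000, -2, -30000⟩
  have sub : Cen K ⊆ (fun t : ℝ => ((ℝ ∙ (!₂[1, 0, t] : E))ᗮ).toAffineSubspace) ''
      (T.roots.toFinset : Set ℝ) := by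
    rintro H ⟨h2, h0, hc⟩
    rw [g0] at h0 hc
    set W := H.direction with hW
    have HW : (H : Set E) = W := by
      ext x
      have := AffineSubspace.vsub_right_mem_direction_iff_mem h0 x
      simpa using this.symm
    have f1 : Module.finrank ℝ Wᗮ = 1 := by
      have := W.finrank_add_finrank_orthogonal
      rw [h2, finrank_euclideanSpace_fin] at this
      omega
    have : Nontrivial Wᗮ := Module.nontrivial_of_finrank_eq_succ f1
    have : Nontrivial W := Module.nontrivial_of_finrank_eq_succ h2
    obtain ⟨u, hu⟩ : ∃ u : Wᗮ, ‖u‖ = 1 := exists_norm_eq _ zero_le_one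
    have u1 : ‖(u : E)‖ = 1 := hu
    have u0 : (u : E) ≠ 0 := by intro h; simp [h] at u1
    have Wu : W = (ℝ ∙ (u : E))ᗮ := by
      have : (ℝ ∙ (u : E)) = Wᗮ := Submodule.eq_of_le_of_finrank_eq
        ((Submodule.span_singleton_le_iff_mem _ _).2 u.2) (by rw [finrank_span_singleton u0, f1])
      rw [this, Submodule.orthogonal_orthogonal]
    have mW : ∀ x : E, x ∈ W ↔ ⟪(u : E), x⟫ = 0 := fun x => by
      rw [← Submodule.mem_orthogonal_singleton_iff_inner_right, ← Wu]
    have emb : MeasurableEmbedding ((↑) : W → E) :=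
      W.closed_of_finiteDimensional.isClosedEmbedding_subtypeVal.measurableEmbedding
    have mp : (μHE[2] : Measure E).restrict (K ∩ H) =
        Measure.map ((↑) : W → E) (volume.restrict ((↑) ⁻¹' K)) := by
      rw [← emb.restrict_map, ← InnerProductSpace.euclideanHausdorffMeasure_eq_volume, h2,
        isometry_subtype_coe.map_euclideanHausdorffMeasure, Measure.restrict_restrict
          hK.measurableSet, Subtype.range_coe, HW]
    have cK : IsCompact (((↑) : W → E) ⁻¹' K) :=
      W.closed_of_finiteDimensional.isClosedEmbedding_subtypeVal.isCompact_preimage hK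
    have pos : 0 < volume.real (((↑) : W → E) ⁻¹' K) := by
      refine ENNReal.toReal_pos (ne_of_gt ?_) cK.measure_lt_top.ne
      refine lt_of_lt_of_le (measure_ball_pos volume (0 : W) (by norm_num : (0 : ℝ) < 1 / 2))
        (measure_mono fun x hx => hb ?_)
      simpa using hx
    have z : ∫ x in ((↑) : W → E) ⁻¹' K, (x : E) = 0 := by
      rw [average_eq, mp, emb.integral_map, smul_eq_zero] at hc
      refine hc.resolve_left (inv_ne_zero ?_)
      rw [map_measureReal_apply emb.measurable MeasurableSet.univ]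
      simpa using pos.ne'
    obtain ⟨c, c0, hc⟩ := star cA (fun j => W.orthogonalProjectionOnto (v j)) cK
      (ρ := fun θ => ρ θ) (fun θ h => (hρ θ h).1) (fun θ h r hr => (hρ θ h).2.1 r hr)
      (d := 1) (κ := 2 * ε) h2 (fun θ h => by
        have := (hρ θ h).2.2.1
        simp only [Submodule.inner_orthogonalProjectionOnto_eq_of_mem_left]
        simpa using this)
    have s1 := nsq u
    rw [u1] at s1
    obtain ⟨a1, a2, a3⟩ := alg (x := (u : E) 0) (y := (u : E) 1) (z := (u : E) 2) (by linarith) (by
      intro a b d e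
      have hw : (!₂[a, b, d] : E) ∈ W := by rw [mW, ip]; simpa using e
      have i : IntegrableOn (fun x : W => (x : E)) ((↑) ⁻¹' K) :=
        continuous_subtype_val.continuousOn.integrableOn_compact cK
      have k := hc ⟨_, hw⟩
      have k2 := integral_inner (𝕜 := ℝ) i (!₂[a, b, d] : E)
      rw [z, inner_zero_right] at k2
      have k3 : ∫ x in ((↑) : W → E) ⁻¹' K, ⟪x, (⟨_, hw⟩ : W)⟫ = 0 := by
        rw [← k2]
        simp only [Submodule.coe_inner, real_inner_comm]
      rw [k3] at k
      have k4 := (mul_eq_zero.1 k.symm).resolve_left (by positivity)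
      rw [← k4]
      refine Finset.sum_congr rfl fun j _ => ?_
      have n : ‖W.orthogonalProjectionOnto (v j)‖ ^ 2 = ‖v j‖ ^ 2 - ⟪v j, (u : E)⟫ ^ 2 := by
        have : ((W.orthogonalProjectionOnto (v j) : W) : E) = v j - ⟪(u : E), v j⟫ • (u : E) := by
          change W.starProjection (v j) = _
          refine Submodule.eq_starProjection_of_mem_orthogonal ?_ ?_
          · rw [mW, inner_sub_right, real_inner_smul_right, real_inner_self_eq_norm_sq, u1]
            ring
          · rw [sub_sub_cancel]
            exact Submodule.smul_mem _ _ u.2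
        rw [Submodule.coe_norm, this, norm_sub_sq_real, real_inner_smul_right, norm_smul, u1,
          real_inner_comm (u : E)]
        simp
        ring
      rw [n, Submodule.inner_orthogonalProjectionOnto_eq_of_mem_right, nsq, ip, ip]
      simp [v])
    refine ⟨(u : E) 2 / (u : E) 0, ?_, ?_⟩
    · simp only [Finset.mem_coe, Multiset.mem_toFinset]
      exact (Cubic.mem_roots_iff (Cubic.ne_zero_of_a_ne_zero (by simp [T])) _).2 a3
    · ext x
      rw [Submodule.mem_toAffineSubspace, Submodule.mem_orthogonal_singleton_iff_inner_right,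
        ← SetLike.mem_coe, HW, SetLike.mem_coe, mW, ip, ip, a1]
      simp only [Matrix.cons_val_zero, Matrix.cons_val_one, Matrix.cons_val]
      constructor
      · intro h; field_simp at h; linarith
      · intro h; field_simp; linarith
  refine (encard_le_encard sub).trans ((encard_image_le _ _).trans ?_)
  rw [encard_coe_eq_coe_finsetCard]
  exact_mod_cast Cubic.card_roots_le

end Pool.Agent.Results.MP_be4961_gt.Three
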